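import Pool.Agent.X234.CD.Main

set_option autoImplicit false

/-!
# MP_43f1fb_co, Q1: the majority relation of `D_{n,p}` is the linear order of `u_p`

Permutations in `S_n` are realised as the permutations of `ℕ` that move only `1, …, n`; all
products of letters `s_1, …, s_{n-1}` are of this kind.
-/

namespace Pool.Agent.Results.MP_43f1fb_co.MajorityIsHalfway

open Pool.Agent.X234.CD

/-- For all `n ≥ 3` and `1 ≤ p ≤ n / 2` the domain `D_{n,p}` is a finite set whose majority
relation is the total order `<_{u_p}`, where `u_p` is the product of the first `p` blocks. -/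
theorem result : ∀ n p : ℕ, 3 ≤ n → 1 ≤ p → 2 * p ≤ n →
    (dom n p).Finite ∧ ∀ a b : ℕ, 1 ≤ a → a ≤ n → 1 ≤ b → b ≤ n → a ≠ b →
      (maj (dom n p) a b ↔ before (wp (alt n p)) a b) :=
  fun _ _ hn hp1 hp => ⟨finite_dom hn hp, fun _ _ ha1 ha2 hb1 hb2 hab =>
    main hn hp1 hp ha1 ha2 hb1 hb2 hab⟩

end Pool.Agent.Results.MP_43f1fb_co.MajorityIsHalfway
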